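import Pool.Agent.Lead.Doeb

set_option autoImplicit false

namespace Pool.Agent.Results.MP_313e16_pr.Q1
open Finset Matrix Filter Topology

section defs
variable {K : Type} [Field K] {N : ℕ} [NeZero N]

/-- `m_i(x) = 2 x_{i-1} + x_{i+1}` (cyclic indices) -/
def mi (x : Fin N → Bool) (i : Fin N) : Fin 4 :=
  match x (i - 1), x (i + 1) with
  | false, false => 0
  | false, true => 1
  | true, false => 2
  | true, true => 3

/-- transition matrix: a uniform player `i` tosses a `p_{m_i(x)}`-coin; `x_i` becomes 1 on heads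
and 0 on tails -/
def P (p : Fin 4 → K) : Matrix (Fin N → Bool) (Fin N → Bool) K := fun x y =>
  (∑ i, ((if y = Function.update x i true then p (mi x i) else 0) +
    (if y = Function.update x i false then 1 - p (mi x i) else 0))) / N

/-- mean profit `μ^N` computed from the stationary law `π` -/
def mu (p : Fin 4 → K) (π : (Fin N → Bool) → K) : K :=
  (∑ x, π x * ∑ i, (p (mi x i) - (1 - p (mi x i)))) / N

end defs

/-- probability vectors -/
def IsDist {S : Type} [Fintype S] (μ : S → ℝ) : Prop := (∀ x, 0 ≤ μ x) ∧ ∑ x, μ x = 1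

/-- the chain is ergodic with stationary law `π`: `π` is the unique stationary distribution and
the chain converges to it from every initial distribution -/
def ErgodicWith (N : ℕ) [NeZero N] (p : Fin 4 → ℝ) (π : (Fin N → Bool) → ℝ) : Prop :=
  IsDist π ∧ π ᵥ* P p = π ∧ (∀ π', IsDist π' → π' ᵥ* P p = π' → π' = π) ∧
    ∀ μ, IsDist μ → Tendsto (fun n => μ ᵥ* (P p) ^ n) atTop (𝓝 π)

lemma P_cast (q : Fin 4 → ℚ) (x y : Fin 4 → Bool) :
    P (fun m => (q m : ℝ)) x y = ((P q x y : ℚ) : ℝ) := by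
  simp only [P]
  push_cast
  congr 1
  apply Finset.sum_congr rfl
  intro i _
  split_ifs <;> simp

lemma mu_cast (q : Fin 4 → ℚ) (π : (Fin 4 → Bool) → ℚ) :
    mu (fun m => (q m : ℝ)) (fun x => (π x : ℝ)) = ((mu q π : ℚ) : ℝ) := by
  simp only [mu]
  push_cast
  rfl

lemma erg (q : Fin 4 → ℚ) (π : (Fin 4 → Bool) → ℚ) (h0 : ∀ x y : Fin 4 → Bool, 0 ≤ P q x y)
    (h1 : ∀ x : Fin 4 → Bool, ∑ y, P q x y = 1)
    (h2 : ∀ (x : Fin 4 → Bool) (i : Fin 4), 0 < P q x (Function.update x i false))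
    (h3 : ∀ x, 0 ≤ π x) (h4 : ∑ x, π x = 1) (h5 : ∀ y, ∑ x, π x * P q x y = π y) :
    ErgodicWith 4 (fun m => (q m : ℝ)) (fun x => (π x : ℝ)) := by
  have a0 : ∀ x y : Fin 4 → Bool, 0 ≤ P (fun m => (q m : ℝ)) x y := by
    intro x y; rw [P_cast]; exact_mod_cast h0 x y
  have a1 : ∀ x : Fin 4 → Bool, ∑ y, P (fun m => (q m : ℝ)) x y = 1 := by
    intro x; simp only [P_cast]; exact_mod_cast h1 x
  have a2 : ∀ (x : Fin 4 → Bool) (i : Fin 4),
      0 < P (fun m => (q m : ℝ)) x (Function.update x i false) := by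
    intro x i; rw [P_cast]; exact_mod_cast h2 x i
  have a4 : ∑ x, (π x : ℝ) = 1 := by exact_mod_cast h4
  have a5 : (fun x => (π x : ℝ)) ᵥ* P (fun m => (q m : ℝ)) = fun x => (π x : ℝ) := by
    funext y
    simp only [Matrix.vecMul, dotProduct, P_cast]
    exact_mod_cast h5 y
  have hd : ∀ x : Fin 4 → Bool, 0 < (P (fun m => (q m : ℝ)) ^ 4) x (fun _ => false) := by
    intro x
    refine Pool.Agent.Lead.Doeb.pos_step _ a0 a1 3 _ _ _ (a2 x 0) ?_
    refine Pool.Agent.Lead.Doeb.pos_step _ a0 a1 2 _ _ _ (a2 _ 1) ?_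
    refine Pool.Agent.Lead.Doeb.pos_step _ a0 a1 1 _ _ _ (a2 _ 2) ?_
    refine Pool.Agent.Lead.Doeb.pos_step _ a0 a1 0 _ _ _ (a2 _ 3) ?_
    rw [pow_zero, Matrix.one_apply, if_pos]
    · norm_num
    · funext i; fin_cases i <;> simp
  have hc : ∀ μ : (Fin 4 → Bool) → ℝ, IsDist μ →
      Tendsto (fun n => μ ᵥ* (P (fun m => (q m : ℝ))) ^ n) atTop (𝓝 (fun x => (π x : ℝ))) :=
    fun μ hμ => Pool.Agent.Lead.Doeb.conv' _ a0 a1 4 (by norm_num) _ hd _ a4 a5 μ hμ.2
  refine ⟨⟨fun x => show (0:ℝ) ≤ (π x : ℝ) by exact_mod_cast h3 x, a4⟩, a5, ?_, hc⟩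
  intro π' h h'
  have := hc π' h
  simp only [Pool.Agent.Lead.Doeb.stat_pow _ π' h'] at this
  exact tendsto_nhds_unique tendsto_const_nhds this

def q1 : Fin 4 → ℚ := ![19/20, 1/20, 1/20, 1/10]
def q2 : Fin 4 → ℚ := ![19/20, 1/20, 1/20, 3/10]

def cls (a b c d e f : ℚ) (x : Fin 4 → Bool) : ℚ :=
  match (x 0).toNat + (x 1).toNat + (x 2).toNat + (x 3).toNat with
  | 0 => a
  | 1 => b
  | 2 => if x 0 = x 2 then d else c
  | 3 => e
  | _ => f

def pi1 : (Fin 4 → Bool) → ℚ := cls (11367/4958150) (215973/4958150) (73017/4958150)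
  (1760787/4958150) (65493/4958150) (7277/4958150)
def pi2 : (Fin 4 → Bool) → ℚ := cls (18669/5299510) (354711/5299510) (162659/5299510)
  (1267889/5299510) (4123/143230) (1767/143230)

theorem result : ∃ (N : ℕ) (_ : NeZero N) (j : Fin 4) (p p' : Fin 4 → ℝ)
    (π π' : (Fin N → Bool) → ℝ), 3 ≤ N ∧ (∀ m, 0 ≤ p m ∧ p m ≤ 1) ∧ (∀ m, 0 ≤ p' m ∧ p' m ≤ 1) ∧
    (∀ m, m ≠ j → p m = p' m) ∧ p j < p' j ∧ ErgodicWith N p π ∧ ErgodicWith N p' π' ∧
    mu p' π' < mu p π := by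
  refine ⟨4, inferInstance, 3, fun m => (q1 m : ℝ), fun m => (q2 m : ℝ), fun x => (pi1 x : ℝ),
    fun x => (pi2 x : ℝ), by norm_num, ?_, ?_, ?_, ?_, ?_, ?_, ?_⟩
  · intro m; fin_cases m <;> simp [q1] <;> norm_num
  · intro m; fin_cases m <;> simp [q2] <;> norm_num
  · intro m hm; fin_cases m <;> simp [q1, q2] at hm ⊢
  · simp [q1, q2]; norm_num
  · exact erg q1 pi1 (by decide +kernel) (by decide +kernel) (by decide +kernel)
      (by decide +kernel) (by decide +kernel) (by decide +kernel)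
  · exact erg q2 pi2 (by decide +kernel) (by decide +kernel) (by decide +kernel)
      (by decide +kernel) (by decide +kernel) (by decide +kernel)
  · rw [mu_cast, mu_cast]
    have : mu q2 pi2 < mu q1 pi1 := by decide +kernel
    exact_mod_cast this

end Pool.Agent.Results.MP_313e16_pr.Q1
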